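import Pool.Agent.Q59.IB.Flat
import Pool.Agent.Q59.IB.Covers

/-!
# The variational Hodge conjecture for `Z × C ^ n`, `Z` any family and `C` a family of covers of curves

Let `B` be a smooth connected quasi-projective variety over `ℂ` and `Z → B` an ARBITRARY smooth projective
family. Let `C → B` be a family of curves, which are Galois covers, with the group `G`, of smooth projective
curves `S_b` of genus `g ≥ 0`, ramified only over some points `a_1 (b), ..., a_r (b)` of `S_b`, with
ramification indices which divide `N`. We study the variational Hodge conjecture for the fibre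
products `X = Z × C × ... × C` over `B`.

**Local systems.** After a finite étale covering of `B`, which does not change the conjecture,
`H ^ 1` of the fibres of `C` is the direct sum of the `χ ⊗ V_χ`, where `χ` runs through the irreducible
representations of `G` and `V_χ = H ^ 1 (S_b, L_χ)` belongs to the local system `L_χ` of `χ`. The local
monodromies have the eigenvalues `exp (2 π i a / N)`; `ex` is the multiset of the nonzero residues `a` for all
points. The structure `LocalSystems` contains the numerical invariants of a finite family of such
local systems `L_i` (on one or on several families of pointed curves); `V_i` has the dimension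
`(2 g - 2) rank + |ex i| + 2 inv`, and its part of type `(0, 1)` the dimension
`hodge t i = ∑ ⟨t a⟩ + (g - 1) rank + inv`, where `t` is a unit modulo `N` which stands for the embedding, and
`⟨a⟩` is the representative of `a / N` in `[0, 1)`.

**Monodromy.** Let `D` be the group of the automorphisms of the sum `H` of the `V_i` which preserve the
`V_i` and the pairings of the dual `V_i` and have the determinant one on all `V_i`: a product of special
linear, symplectic and special orthogonal groups. Let `W` be the cohomology of the fibre of `Z` at a
point `0`, with coefficients in `ℂ`. We suppose that the monodromy group of `B` on `H ⊕ W` has a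
subgroup which acts trivially on `W` and whose Zariski closure contains `D`: the curves move
independently of `Z`. For instance `B` is the product of the base of `Z` and of a variety `T`, and `T` has a
dominant map to the moduli space of the pointed curves `(S, a_1, ..., a_r)`, where `D` is the identity
component of the Zariski closure of the monodromy group of the moduli space (`G` commutative and
`g ≥ 3`: Looijenga, Boggi and Looijenga; `G` arbitrary and `g` large: Landesman, Litt, Sawin;
unramified covers with redundant surjections onto `G`: Grunewald, Larsen, Lubotzky, Malestein;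
`g = 0` and `G` commutative of odd exponent, with a suitable choice of the list of the `V_i`: Deligne, Mostow,
Katz). After a finite covering of `B` each monodromy operator acts on `H` by an element of `D`
(the determinants are of finite order), and on `W` by some `ρ γ`.

**Flat classes.** So the global sections of the local system `H ^ * (X)` are the tensors with values in
`W` which are invariant under `D` and have values in the space of the invariants of the `ρ γ`
(`IsFlat`).

**Algebraic classes.** The pairings are algebraic on all fibres. The product of determinants `det V_i`,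
`i = μ j`, is isomorphic by algebraic correspondences, on all fibres, to the line of a Fermat variety of
degree `N` whose character is the union `exAll` of the `ex i`, up to pairs and standard characters (see
`MP_e12fcd_ag.CoversTimesVarieties`), which is spanned by an algebraic cycle if `exAll` is
`Balanced` (a union of pairs `(a, -a)`) or an `AlgebraicLine` (generated by pairs, standard characters,
characters with four entries and curve products: Shioda, Aoki, Lefschetz). Let `A` be the span in `W` of the
algebraic classes on the fibre of `Z` at the point `0`. If `x` is algebraic on the fibre of `X` at `0`, then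
the contraction `contract b x = ∑ w, b w • x w` of `x` with an algebraic product `b` of pairings and
determinants is in `A` (the contraction with `b` is the contraction, by the pairings, with the product
of the pairings and the determinants of the dual spaces, up to a sign). This is the only property
of algebraic cycles on `X` which is used.

**The theorem.** Let `x` be a flat class, and let all contractions of `x` with algebraic products be in
`A` (for instance `x` is algebraic on the fibre at `0`).

(1) Suppose that the exponents of all local systems form pairs (`Balanced`): this is so if the covers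
are unramified, or if the local monodromies form pairs of mutually inverse conjugacy classes or are
conjugate to their inverses (for instance for symmetric groups and Weyl groups). Then `x` is a
combination of products of algebraic products `b` and of flat classes `z` on `Z` which are algebraic at
`0`. So **the variational Hodge conjecture for `Z → B` implies the variational Hodge conjecture for
all `Z × C ^ n → B`.** If `Z` is a constant family then this is the variational Hodge conjecture
for `Z × C ^ n`, for an arbitrary smooth projective variety `Z`.

(2) The same holds, if the cohomology of `Z` contains no nontrivial Hodge structures of CM type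
(`NoCM`) and `S` is `Tame`: all exponents form doubles `(a, a)` and pairs, with no condition on `N` (for
instance `y ^ m = f (x)`, where `f` runs through the polynomials of an even degree divisible by `m`), or
`|ex i| ≤ B dim V_i` and no element of the finite set `ExcludedEven (B s)` or `ExcludedOdd (B s)` divides `N`;
all these numbers are at least `55`. Here `x` is supposed to be a Hodge class (`HodgeType`), which is so if it is
algebraic on one fibre (theorem of the fixed part); since `x` is invariant under `D`, the Hodge operator of
`V_i` can be replaced by its average eigenvalue `hodge t i / dim i`.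
-/

namespace Pool.Agent.Results.MP_e9c0f3_ag.CoversTimesFamilies

open Pool.Agent.Q59.GC Pool.Agent.Q59.VZ Pool.Agent.Q59.IB

/-- The members of an algebraic line. -/
def IsAlgebraic {N : ℕ} (u : Multiset (ZMod N)) : Prop := u = 0 ∨ AlgebraicLine N u

/-- Nonzero elements of `W` which are of a pure type `(., q t)` at all embeddings `t` have the same
type at all embeddings. -/
def NoCM {N : ℕ} {W : Type} [AddCommGroup W] [Module ℂ W] (F : (ZMod N)ˣ → ℚ → Submodule ℂ W) :
    Prop :=
  ∀ (q : (ZMod N)ˣ → ℚ) (z : W), z ≠ 0 → (∀ t, z ∈ F t (q t)) → ∀ t t', q t = q t'

section

variable {N : ℕ} {I : Type} [Fintype I] [DecidableEq I] {S : LocalSystems N I}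
  {ε : Letter S.labels → ℂ} {W : Type} [AddCommGroup W] [Module ℂ W]

/-- The flat classes: tensors with values in `W` which are invariant under `D` and whose values
are fixed by the monodromy operators `ρ γ`. -/
structure IsFlat (ε : Letter S.labels → ℂ) {Γ : Type} (ρ : Γ → W →ₗ[ℂ] W) {s : ℕ}
    (x : (Fin s → Letter S.labels) → W) : Prop where
  inv : ∀ g, InD ε g → actW g x = x
  fixed : ∀ γ w, ρ γ (x w) = x w

/-- All contractions of `x` with products of pairings and determinants whose exponents satisfy `P`
are in `A`. -/
def ContractsInto (ε : Letter S.labels → ℂ) (P : Multiset (ZMod N) → Prop) (A : Submodule ℂ W)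
    {s : ℕ} (x : (Fin s → Letter S.labels) → W) : Prop :=
  ∀ (l p : ℕ) (μ : Fin l → I) (ν : Fin p → I)
    (e : (Σ j : Fin l, Fin (S.labels.dim (μ j))) ⊕ (Fin p × Fin 2) ≃ Fin s),
    P (exAll S.labels μ) → contract (prodOf ε μ ν e) x ∈ A

/-- For each embedding (given by the unit `t`) `x` has the total type `(c, c)`; the family `F`
describes the types in `W`, and the Hodge operator acts on the tensor factor that is a conjugate of
`V_i` by its average eigenvalue `hodge t i / dim i`. -/
def HodgeType (F : (ZMod N)ˣ → ℚ → Submodule ℂ W) (c : ℚ) {s : ℕ}
    (x : (Fin s → Letter S.labels) → W) : Prop :=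
  ∀ (t : (ZMod N)ˣ) (w : Fin s → Letter S.labels),
    x w ∈ F t (c - ∑ k, hodge S.labels (t : ZMod N) (w k).1 / S.labels.dim (w k).1)

end

/-- **The variational Hodge conjecture for the products of an arbitrary family with powers of families
of covers of curves.** -/
theorem result (N : ℕ) [NeZero N] (I : Type) [Fintype I] [DecidableEq I] (S : LocalSystems N I)
    (ε : Letter S.labels → ℂ) (hε : ∀ x : Letter S.labels, ¬ S.alt x.1 = true → ε (dual x) = -ε x)
    (hε1 : ∀ x, ε x = 1 ∨ ε x = -1) (W : Type) [AddCommGroup W] [Module ℂ W]
    (Γ : Type) (ρ : Γ → W →ₗ[ℂ] W) (A : Submodule ℂ W)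
    (s : ℕ) (x : (Fin s → Letter S.labels) → W) (hx : IsFlat ε ρ x) :
    ((∀ i, Balanced (S.ex i)) → ContractsInto ε Balanced A x →
      x ∈ spanZ (fun _ μ z => Balanced (exAll S.labels μ) ∧ z ∈ A ∧ ∀ γ, ρ γ z = z)
        ε (Fin s)) ∧
    (∀ (F : (ZMod N)ˣ → ℚ → Submodule ℂ W) (c : ℚ), NoCM F → HodgeType F c x → Tame S s →
      ContractsInto ε IsAlgebraic A x →
      x ∈ spanZ (fun _ μ z => IsAlgebraic (exAll S.labels μ) ∧ z ∈ A ∧ (∀ γ, ρ γ z = z) ∧
        ∀ t : (ZMod N)ˣ, z ∈ F t (c - s / 2)) ε (Fin s)) := by
  have hε0 : ∀ x, ε x ≠ 0 := fun x => by
    rcases hε1 x with h | h <;> rw [h] <;> norm_num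
  have hre : ∀ x, (starRingEnd ℂ) (ε x) = ε x := fun x => by
    rcases hε1 x with h | h <;> rw [h] <;> simp
  let C : Submodule ℂ W := ⨅ γ, LinearMap.ker (ρ γ - LinearMap.id)
  have hC : ∀ z, z ∈ C ↔ ∀ γ, ρ γ z = z := fun z => by
    rw [Submodule.mem_iInf]
    refine forall_congr' fun γ => ?_
    rw [LinearMap.mem_ker, LinearMap.sub_apply, LinearMap.id_apply, sub_eq_zero]
  have hxC : ∀ w, x w ∈ C := fun w => (hC _).mpr fun γ => hx.fixed γ w
  refine ⟨fun hbal hA => ?_, fun F c hNo hF htame hA => ?_⟩
  · obtain ⟨n, d, z, hQ, hz, hxz⟩ := contract_coords (Λ := S.labels) (κ := Fin s) hre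
      (Q := fun d => Balanced (exAll S.labels d.μ)) (A := A) (B := ⊤) (C := C)
      (P := fun _ μ _ => ∀ j, 0 < S.labels.dim (μ j))
      (fun d' z _ => ⟨trivial, Or.inl (Balanced.sum _ _ fun i => hbal (d'.μ i))⟩)
      (inv_mem (Λ := S.labels) hε hε0 hx.inv) (fun d hd => hA _ _ _ _ _ hd) hxC
    rw [hxz]
    exact sum_mem_spanZ d z fun j => ⟨hQ j, (hz j).1, (hC _).mp (hz j).2.2⟩
  · let B : Submodule ℂ W := ⨅ t : (ZMod N)ˣ, F t (c - s / 2)
    have hB : ∀ z, z ∈ B ↔ ∀ t : (ZMod N)ˣ, z ∈ F t (c - s / 2) := fun z => Submodule.mem_iInf _
    have hmem : x ∈ spanZ (fun (l : ℕ) (μ : Fin l → I) z =>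
        z = 0 ∨ (IsAlgebraic (exAll S.labels μ) ∧ z ∈ B)) ε (Fin s) := by
      refine mainZ (Λ := S.labels) hε hε0
        (fun (t : (ZMod N)ˣ) i => offset (t : ZMod N) (S.ex i)) (fun t i => ?_) F (c - s / 2) hx.inv
        (fun t w => ?_) _ (fun l μ h1 h2 _ _ z hz => ?_)
      · change offset (t : ZMod N) (S.ex (S.star i)) = _
        rw [S.ex_star]
        exact offset_star t _ (S.ex_ne i)
      · have h1 := hF t w
        have h2 : ∑ k, hodge S.labels (t : ZMod N) (w k).1 / S.labels.dim (w k).1 =
            (s : ℚ) / 2 + ∑ k, offset (t : ZMod N) (S.ex (w k).1) / S.labels.dim (w k).1 := by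
          have h3 : ∀ k, hodge S.labels (t : ZMod N) (w k).1 / S.labels.dim (w k).1 =
              1 / 2 + offset (t : ZMod N) (S.ex (w k).1) / S.labels.dim (w k).1 := by
            intro k
            have hd : (S.labels.dim (w k).1 : ℚ) ≠ 0 := by
              have : 0 < S.labels.dim (w k).1 := (Nat.zero_le _).trans_lt (w k).2.2
              exact_mod_cast this.ne'
            rw [hodge_offset]
            change (offset (t : ZMod N) (S.ex (w k).1) + _) / _ = _
            field_simp
            ring
          rw [Finset.sum_congr rfl fun k _ => h3 k, Finset.sum_add_distrib, Finset.sum_const,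
            Finset.card_univ, Fintype.card_fin, nsmul_eq_mul]
          ring
        rw [h2] at h1
        have h4 : c - ((s : ℚ) / 2 + ∑ k, offset (t : ZMod N) (S.ex (w k).1) /
            S.labels.dim (w k).1) =
            c - s / 2 - ∑ k, offset (t : ZMod N) (S.ex (w k).1) / S.labels.dim (w k).1 := by ring
        rw [h4] at h1
        exact h1
      · rw [Fintype.card_fin] at h2
        by_cases hz0 : z = 0
        · exact Or.inl hz0
        right
        have hz' : ∀ t : (ZMod N)ˣ,
            z ∈ F t (c - s / 2 - offset (t : ZMod N) (exAll S.labels μ)) := fun t => by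
          rw [offset_sum]
          exact hz t
        have h0 := exAll_zero_notMem (Λ := S.labels) μ
        have hconst := hNo (fun t => c - s / 2 - offset (t : ZMod N) (exAll S.labels μ)) z hz0 hz'
        have hoff : ∀ t : (ZMod N)ˣ, offset (t : ZMod N) (exAll S.labels μ) = 0 := by
          intro t
          have h1 := hconst t (-t)
          rw [offset_neg t _ h0] at h1
          linarith
        refine ⟨algebraicLine_of_offset htame h1 h2 hoff, (hB _).mpr fun t => ?_⟩
        have h1 := hz' t
        rw [hoff t, sub_zero] at h1
        exact h1
    obtain ⟨n, d, z, hQ, hz, hxz⟩ := contract_coords (Λ := S.labels) (κ := Fin s) hre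
      (Q := fun d => IsAlgebraic (exAll S.labels d.μ)) (A := A) (B := B) (C := C)
      (fun d' z h => by
        rcases h with h | h
        · subst h
          exact ⟨Submodule.zero_mem _, Or.inr rfl⟩
        · exact ⟨h.2, Or.inl h.1⟩) hmem (fun d hd => hA _ _ _ _ _ hd) hxC
    rw [hxz]
    exact sum_mem_spanZ d z fun j =>
      ⟨hQ j, (hz j).1, (hC _).mp (hz j).2.2, (hB _).mp (hz j).2.1⟩

end Pool.Agent.Results.MP_e9c0f3_ag.CoversTimesFamilies
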