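import Pool.Agent.Q57.SP.VFin

/-!
# An index law for all algebraic classes on the fibres of a family

Let `S` be a smooth connected complex variety, `X` a smooth projective family over `S` and `X_0` the fibre
over a point `0`; we consider the fibre powers `X^n` over `S`. We compare ALL algebraic classes on `X_0^n`
with the algebraic cycles on the geometric generic fibre of `X^n`. The quotient of the dimension of the space
of these classes and of the rank of the group of the cycles modulo numerical equivalence tends to an element
`N ≥ 1` of `ℕ ∪ {∞}`. If `N` is finite then all algebraic classes on all powers of `X_0` are flat (fixed by a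
subgroup of finite index of the fundamental group of `S`), homological and numerical equivalence agree on
the powers of the generic fibre, and all algebraic classes are generated by the specializations of cycles of
the generic fibre and `N - 1` others. So if one power of `X_0` has an algebraic class which is not flat then
the specializations of cycles on the generic fibre have asymptotic proportion zero among the algebraic
classes on the powers of `X_0`. Moreover `N = 1` exactly if on all powers of `X_0` all algebraic classes
are specializations of combinations of cycles of the generic fibre, and on the generic fibre homological and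
numerical equivalence agree.

The theorem is proved for a Weil cohomology theory `W` on an arbitrary class of smooth projective varieties
which is stable under products (the generic fibres of families over finite étale coverings of `S`), with an
action of a group `Γ` which has the formal properties of the monodromy action, and a specialization to
another class of varieties (the complex varieties).
-/

open CategoryTheory AlgebraicGeometry

universe u v u₀ v₀ w

namespace Pool.Agent.Results.MP_e9c0f3_ag.SpecialFibreIndex

open Pool.Agent.H914 Pool.Agent.H914.WeilCohomology
open Pool.Agent.Y133.Half (pw HasIndex algDim cycRank GeneratedOver)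
open Pool.Agent.Q55 (GaloisAction)
open Pool.Agent.Q57.SP

variable {k : Type u} [Field k] {𝒱 : VarClass k} {ops : CycleOps 𝒱}
  {k₀ : Type u₀} [Field k₀] {𝒱₀ : VarClass k₀} {ops₀ : CycleOps 𝒱₀}
  {W : WeilCohomology.{u, v} ops} {W₀ : WeilCohomology.{u₀, v₀} ops₀}

/-- **An index law for all algebraic classes on the special fibres.** `pw X n` is the product of `n + 1`
copies of `X`, and `S.o` is the special fibre. -/
theorem result (S : Specialization W W₀) {Γ : Type w} [Group Γ] (G : GaloisAction W Γ)
    (hχ : ∀ g, G.χ g = 1) (X : 𝒱.Obj) [Nontrivial (W.H X)] :
    ∃ N : ℕ∞, 1 ≤ N ∧
      HasIndex (fun n => algDim W₀ (S.o (pw X n))) (fun n => cycRank ops (pw X n)) N ∧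
      (N = 1 ↔ ∀ n, (∀ j c, IsAlgOn S (pw X n) j c → c ∈ spanCycles W (pw X n) j) ∧
        HomEqNum W (pw X n)) ∧
      (N ≠ ⊤ → (∀ n j c, IsAlgOn S (pw X n) j c → IsFlat G (pw X n) c) ∧
        (∀ n, HomEqNum W (pw X n)) ∧
        GeneratedOver W (fun Z j c => c ∈ spanCycles W Z j) (IsAlgOn S) X N) := by
  obtain ⟨N, h1, h2, h3, h4⟩ := spec_law S G X
  exact ⟨N, h1, h2, h3, fun hN => ⟨fun n j c hc =>
    ((tate_iff_flat G hχ).1 ((h4 hN).2.1 n j c hc)).2, (h4 hN).1, (h4 hN).2.2.1⟩⟩

end Pool.Agent.Results.MP_e9c0f3_ag.SpecialFibreIndex
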