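import Pool.Agent.Q59.IB.Flat
import Pool.Agent.Q59.IB.Forms

/-!
# The variational Hodge conjecture for families of sums of binary forms

Let `B` be a smooth connected complex variety, `Z → B` an arbitrary smooth projective family, and let
`f_j`, `j ∈ J`, be finitely many families of binary forms over `B`, without multiple zeros, of arbitrary
degrees `deg j ≥ 2`. We study the families
`X = Z × X_1 × ... × X_n → B`, where each `X_k` is a family of hypersurfaces
`f_(j_1) (x_1, y_1) + ... + f_(j_r) (x_r, y_r) = 0` of degree `d` and of arbitrary dimension `2 r - 2`, with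
equal or different forms of the same degree `d` from the list; `d` and `r` depend on `k`. Let `N`
be a common multiple of the degrees.

**The question.** Let `x` be a global section of the local system of the cohomology `H ^ (2 c) (X_s, ℚ (c))` of the
fibres. If `x` is algebraic at the point `0` of `B`, is it algebraic on all fibres?

**The cohomology of `X`.** By the theorems of Thom and Sebastiani, Shioda and Katsura, the primitive
cohomology of `X_k` is the sum over all `(a_1, ..., a_r)` with the sum zero, of the tensor products of the
`V_(j_i, a_i)`, `a_i ≠ 0`, with the line of the Fermat variety with the character `(- a_i : a_i ≠ 0)` and with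
algebraic classes. Here `V_(j, a)` is the eigenspace of `a` in `H ^ 1` of the curve `z ^ d = f_j (x, y)`; it
has the dimension `d - 2`. If `d = 4` and `a` has the order `4`, or `d = 6` and `a` has the order `6`
(`IsCM`), then it is isotrivial, the sum of `d - 2` lines which are isomorphic to the line of the
Fermat curve with the character `(a, 2 a, (d - 3) a)`. See `Pool.Agent.Q59.IB.Forms` (`labels`) for the
numerical invariants of the spaces `V_i`, `i = (j, a, e)`, and `letterType` for the contribution of a
letter of `V_i` and of the entry `- a` of the Fermat variety to the Hodge type.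

**Monodromy.** Let `D` be the group of the linear maps of the sum of the `V_i` which preserve the `V_i`
and the pairings, and have the determinant one on `V_i` if `V_i` is not dual to itself: a product of special
linear groups and of symplectic groups. It is the identity component of the Zariski closure of
the monodromy group of the universal family of all tuples `(f_j)` (see
`Pool.Agent.Q59.Cand.SumsOfBinaryForms` for the sources: Deligne and Mostow; Carlson and Toledo;
Goursat, Kolchin, Ribet). Let `W` be the cohomology of the fibre of `Z` at `0`. We suppose that the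
forms move independently of `Z`: the monodromy group of `B` contains a subgroup which acts trivially on
`W` and whose Zariski closure on the sum of the `V_i` contains `D`. For instance `B` is the product of the
base of `Z` and of the space of all tuples of binary forms without multiple zeros. After a finite covering
of `B` the global sections are the tensors with values in `W` which are invariant under `D` and
whose values are fixed by the monodromy operators `ρ γ` on `W` (`IsFlat`).

**Algebraic classes.** The pairings are algebraic on all fibres, and a product of determinants of the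
`V_i`, `i = μ k`, is algebraic on all fibres, if the line of the Fermat variety with the character
`total μ` is generated by pairs and standard characters (`StandardLine`, or `total μ = 0`); see
`Pool.Agent.Q59.Cand.SumsOfBinaryForms`. Let `A` be the span in `W` of the algebraic classes on the
fibre of `Z` at `0`. If `x` is algebraic at `0` then its contractions `contract b x = ∑ w, b w • x w`
with these algebraic products `b` are in `A`.

**The theorem.** Let `x` be a flat class which is a Hodge class (`HodgeType`; this follows if `x` is
algebraic on one fibre, by the theorem of the fixed part), and suppose that `H ^ * (Z)` contains no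
nontrivial Hodge structures of CM type (`NoCM`).

(1) `x` is a combination of products of flat Hodge classes `z` of `Z` with products `b` which are
algebraic on ALL fibres.

(2) If all contractions of `x` with algebraic products are in `A`, for instance if `x` is algebraic at
`0`, then `x` is a combination of products of the `b` with flat Hodge classes `z` of `Z` which are
algebraic at `0`.

So **the variational Hodge conjecture for `Z → B` implies the variational Hodge conjecture for `X → B`**, and
if `Z` is a constant family (or a point) then **the variational Hodge conjecture holds for `X → B`**, for an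
arbitrary smooth projective variety `Z` without CM parts. There is no condition on the degrees, and the
exotic classes given by the determinants of the `V_i`, which are not products of divisor classes, are
included.
-/

namespace Pool.Agent.Results.MP_e9c0f3_ag.SumsOfBinaryFormsFamilies

open Pool.Agent.Q59.GC Pool.Agent.Q59.VZ Pool.Agent.Q59.IB Pool.Agent.Q59.IB.Forms

/-- The product of determinants is algebraic: its total character is empty or a standard line. -/
def IsAlgebraic {N : ℕ} [NeZero N] {J : Type} (deg : J → ℕ) (hdeg : ∀ j, 2 ≤ deg j) {l : ℕ}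
    (μ : Fin l → Label N deg) : Prop :=
  total deg hdeg μ = 0 ∨ StandardLine N (total deg hdeg μ)

section

variable {N : ℕ} [NeZero N] {J : Type} [Fintype J] [DecidableEq J] {deg : J → ℕ}
  {hdeg : ∀ j, 2 ≤ deg j} {W : Type} [AddCommGroup W] [Module ℂ W]

/-- The flat classes: tensors with values in `W` which are invariant under `D` and whose values
are fixed by the monodromy operators `ρ γ`. -/
structure IsFlat (ε : Letter (labels (N := N) deg hdeg) → ℂ) {Γ : Type} (ρ : Γ → W →ₗ[ℂ] W) {s : ℕ}
    (x : (Fin s → Letter (labels (N := N) deg hdeg)) → W) : Prop where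
  inv : ∀ g, InD ε g → actW g x = x
  fixed : ∀ γ w, ρ γ (x w) = x w

/-- For each embedding (given by the unit `t`) `x` has the total type `(c, c)`; the family `F`
describes the types in `W`. -/
def HodgeType (F : (ZMod N)ˣ → ℚ → Submodule ℂ W) (c : ℚ) {s : ℕ}
    (x : (Fin s → Letter (labels (N := N) deg hdeg)) → W) : Prop :=
  ∀ (t : (ZMod N)ˣ) (w : Fin s → Letter (labels (N := N) deg hdeg)),
    x w ∈ F t (c - ∑ k, letterType deg hdeg (t : ZMod N) (w k).1)

/-- All contractions of `x` with algebraic products of pairings and determinants are in `A`. -/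
def ContractsInto (ε : Letter (labels (N := N) deg hdeg) → ℂ) (A : Submodule ℂ W)
    {s : ℕ} (x : (Fin s → Letter (labels (N := N) deg hdeg)) → W) : Prop :=
  ∀ (l p : ℕ) (μ : Fin l → Label N deg) (ν : Fin p → Label N deg)
    (e : (Σ j : Fin l, Fin ((labels (N := N) deg hdeg).dim (μ j))) ⊕ (Fin p × Fin 2) ≃ Fin s),
    IsAlgebraic deg hdeg μ → contract (prodOf ε μ ν e) x ∈ A

end

/-- **The variational Hodge conjecture for products of an arbitrary family with families of
hypersurfaces `f_1 (x_1, y_1) + ... + f_r (x_r, y_r) = 0`.** -/
theorem result (N : ℕ) [NeZero N] (J : Type) [Fintype J] [DecidableEq J] (deg : J → ℕ)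
    (hdeg : ∀ j, 2 ≤ deg j) (ε : Letter (labels (N := N) deg hdeg) → ℂ)
    (hε : ∀ x, ε (dual x) = -ε x) (hε1 : ∀ x, ε x = 1 ∨ ε x = -1)
    (W : Type) [AddCommGroup W] [Module ℂ W] (Γ : Type) (ρ : Γ → W →ₗ[ℂ] W)
    (F : (ZMod N)ˣ → ℚ → Submodule ℂ W) (hF : NoCM F) (c : ℚ) (s : ℕ)
    (x : (Fin s → Letter (labels (N := N) deg hdeg)) → W) (hx : IsFlat ε ρ x)
    (ht : HodgeType F c x) :
    x ∈ spanZ (fun _ μ z => IsAlgebraic deg hdeg μ ∧ (∀ γ, ρ γ z = z) ∧
        ∀ t : (ZMod N)ˣ, z ∈ F t (c - s)) ε (Fin s) ∧
    ∀ A : Submodule ℂ W, ContractsInto ε A x →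
      x ∈ spanZ (fun _ μ z => IsAlgebraic deg hdeg μ ∧ (∀ γ, ρ γ z = z) ∧
        (∀ t : (ZMod N)ˣ, z ∈ F t (c - s)) ∧ z ∈ A) ε (Fin s) := by
  have hε0 : ∀ x, ε x ≠ 0 := fun x => by
    rcases hε1 x with h | h <;> rw [h] <;> norm_num
  have hre : ∀ x, (starRingEnd ℂ) (ε x) = ε x := fun x => by
    rcases hε1 x with h | h <;> rw [h] <;> simp
  let C : Submodule ℂ W := ⨅ γ, LinearMap.ker (ρ γ - LinearMap.id)
  have hC : ∀ z, z ∈ C ↔ ∀ γ, ρ γ z = z := fun z => by
    rw [Submodule.mem_iInf]
    refine forall_congr' fun γ => ?_
    rw [LinearMap.mem_ker, LinearMap.sub_apply, LinearMap.id_apply, sub_eq_zero]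
  have hxC : ∀ w, x w ∈ C := fun w => (hC _).mpr fun γ => hx.fixed γ w
  let B : Submodule ℂ W := ⨅ t : (ZMod N)ˣ, F t (c - s)
  have hB : ∀ z, z ∈ B ↔ ∀ t : (ZMod N)ˣ, z ∈ F t (c - s) := fun z => Submodule.mem_iInf _
  have hmem : x ∈ spanZ (fun (l : ℕ) (μ : Fin l → Label N deg) z =>
      z ∈ B ∧ IsAlgebraic deg hdeg μ) ε (Fin s) := by
    have h1 := Forms.result N J deg hdeg ε hε hε0 W F hF c s x ⟨hx.inv, ht⟩
    refine (Submodule.span_mono ?_ : spanZ _ ε (Fin s) ≤ _) h1
    rintro y ⟨l, p, μ, ν, e, z, hz, rfl⟩
    exact ⟨l, p, μ, ν, e, z, ⟨(hB z).mpr hz.1, hz.2⟩, rfl⟩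
  have key : ∀ A : Submodule ℂ W, ContractsInto ε A x →
      x ∈ spanZ (fun _ μ z => IsAlgebraic deg hdeg μ ∧ (∀ γ, ρ γ z = z) ∧
        (∀ t : (ZMod N)ˣ, z ∈ F t (c - s)) ∧ z ∈ A) ε (Fin s) := by
    intro A hA
    obtain ⟨n, d, z, hQ, hz, hxz⟩ := contract_coords (Λ := labels (N := N) deg hdeg) (κ := Fin s)
      hre (Q := fun d => IsAlgebraic deg hdeg d.μ) (A := A) (B := B) (C := C)
      (fun d' z h => ⟨h.1, Or.inl h.2⟩) hmem (fun d hd => hA _ _ _ _ _ hd) hxC
    rw [hxz]
    exact sum_mem_spanZ d z fun j =>
      ⟨hQ j, (hC _).mp (hz j).2.2, (hB _).mp (hz j).2.1, (hz j).1⟩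
  refine ⟨?_, key⟩
  refine (Submodule.span_mono ?_ : spanZ _ ε (Fin s) ≤ _)
    (key ⊤ fun _ _ _ _ _ _ => Submodule.mem_top)
  rintro y ⟨l, p, μ, ν, e, z, hz, rfl⟩
  exact ⟨l, p, μ, ν, e, z, ⟨hz.1, hz.2.1, hz.2.2.1⟩, rfl⟩

end Pool.Agent.Results.MP_e9c0f3_ag.SumsOfBinaryFormsFamilies
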